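import Pool.Agent.Z15.Q.Stm

/-! Task Q_ALG of helper15: contractions and the operators `opP`. -/

set_option autoImplicit false

namespace Pool.Agent.Z15.Q

namespace QALG

variable {J : Type} {K A : J → Type}

/-- extension of a permutation by a fixed point at `0` -/
def ext1 {n : ℕ} (σ : Equiv.Perm (Fin n)) : Equiv.Perm (Fin (n + 1)) :=
  Equiv.Perm.decomposeFin.symm (0, σ)

theorem ext1_sign {n : ℕ} (σ : Equiv.Perm (Fin n)) :
    Equiv.Perm.sign (ext1 σ) = Equiv.Perm.sign σ := by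
  unfold ext1
  rw [Equiv.Perm.decomposeFin.symm_sign]
  simp

theorem cons_ext1 {n : ℕ} {C : Type} (σ : Equiv.Perm (Fin n)) (x : C) (τ : Fin n → C) :
    (Fin.cons (α := fun _ => C) x (τ ∘ σ) : Fin (n + 1) → C) =
      (Fin.cons (α := fun _ => C) x τ : Fin (n + 1) → C) ∘ ext1 σ := by
  funext m
  refine Fin.cases ?_ (fun m' => ?_) m
  · simp [ext1]
  · simp [ext1]

theorem anti_swap {i : ℕ} {a : Arr K A (i + 2)} (ha : Anti a) (x y : Co K A)
    (τ : Fin i → Co K A) :
    a (Fin.cons x (Fin.cons y τ)) = - a (Fin.cons y (Fin.cons x τ)) := by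
  have h := ha (Equiv.swap 0 1) (Fin.cons y (Fin.cons x τ))
  rw [Equiv.Perm.sign_swap (by simp)] at h
  have e : (Fin.cons (α := fun _ => Co K A) y (Fin.cons (α := fun _ => Co K A) x τ) :
      Fin (i + 2) → Co K A) ∘ Equiv.swap (0 : Fin (i + 2)) 1 =
      Fin.cons (α := fun _ => Co K A) x (Fin.cons (α := fun _ => Co K A) y τ) := by
    funext m
    refine Fin.cases ?_ (fun m' => ?_) m
    · simp only [Function.comp_apply, Equiv.swap_apply_left]
      rfl
    · refine Fin.cases ?_ (fun m'' => ?_) m'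
      · have h1 : (Fin.succ 0 : Fin (i + 2)) = 1 := rfl
        simp only [Function.comp_apply, h1, Equiv.swap_apply_right]
        rfl
      · have h1 : (m''.succ.succ : Fin (i + 2)) ≠ 0 := Fin.succ_ne_zero _
        have h2 : (m''.succ.succ : Fin (i + 2)) ≠ 1 := by
          intro h
          have := congrArg Fin.val h
          simp at this
        simp only [Function.comp_apply, Equiv.swap_apply_of_ne_of_ne h1 h2]
        rfl
  rw [e] at h
  rw [h]
  simp

theorem con_anti [∀ j, Fintype (K j)] {i : ℕ} (a : Arr K A (i + 2)) (j : J) (α β : A j)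
    (ha : Anti a) : Anti (con j α β a) := by
  intro σ τ
  have key : ∀ x y : Co K A, a (Fin.cons x (Fin.cons y (τ ∘ σ))) =
      ((Equiv.Perm.sign σ : ℤ) : ℂ) * a (Fin.cons x (Fin.cons y τ)) := by
    intro x y
    rw [cons_ext1 σ y τ, cons_ext1 (ext1 σ) x, ha (ext1 (ext1 σ)), ext1_sign, ext1_sign]
  unfold con
  rw [Finset.mul_sum]
  refine Finset.sum_congr rfl fun k _ => ?_
  rw [key, key]
  ring

theorem opP_anti [∀ j, Fintype (A j)] {i : ℕ} (a : Arr K A i) (j : J) (k l : K j)
    (ha : Anti a) : Anti (opP j k l a) := by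
  classical
  intro σ b
  unfold opP
  rw [← Equiv.sum_comp σ (fun m : Fin i => ∑ α : A j,
    if b m = Sum.inl ⟨j, k, α⟩ then a (Function.update b m (Sum.inr ⟨j, l, α⟩)) else 0),
    Finset.mul_sum]
  refine Finset.sum_congr rfl fun m _ => ?_
  rw [Finset.mul_sum]
  refine Finset.sum_congr rfl fun α _ => ?_
  have e : Function.update (b ∘ σ) m (Sum.inr ⟨j, l, α⟩ : Co K A) =
      Function.update b (σ m) (Sum.inr ⟨j, l, α⟩ : Co K A) ∘ σ := by
    rw [Function.update_comp_equiv, Equiv.symm_apply_apply]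
  simp only [Function.comp_apply]
  split_ifs with h
  · rw [← ha σ, ← e]
  · simp

open Classical in
theorem opP_cons2 [∀ j, Fintype (A j)] {i : ℕ} (a : Arr K A (i + 2)) (j : J) (k l : K j)
    (x y : Co K A) (τ : Fin i → Co K A) :
    opP j k l a (Fin.cons x (Fin.cons y τ)) =
      (∑ α : A j, if x = Sum.inl ⟨j, k, α⟩ then
        a (Fin.cons (Sum.inr ⟨j, l, α⟩) (Fin.cons y τ)) else 0) +
      ((∑ α : A j, if y = Sum.inl ⟨j, k, α⟩ then
        a (Fin.cons x (Fin.cons (Sum.inr ⟨j, l, α⟩) τ)) else 0) +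
      ∑ m : Fin i, ∑ α : A j, if τ m = Sum.inl ⟨j, k, α⟩ then
        a (Fin.cons x (Fin.cons y (Function.update τ m (Sum.inr ⟨j, l, α⟩)))) else 0) := by
  unfold opP
  rw [Fin.sum_univ_succ, Fin.sum_univ_succ]
  simp only [Fin.cons_zero, Fin.cons_succ, Fin.update_cons_zero, ← Fin.cons_update]

theorem t1 [∀ j, Fintype (K j)] [∀ j, Fintype (A j)] {i : ℕ} (a : Arr K A (i + 2))
    (ha : Anti a) (j : J) (k l : K j) (j' : J) (α β : A j') :
    con j' α β (opP j k l a + opP j l k a) =
      opP j k l (con j' α β a) + opP j l k (con j' α β a) := by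
  classical
  funext τ
  -- the terms at the first position
  have hfirst : ∀ (k l : K j) (α β : A j'),
      (∑ k' : K j', ∑ α' : A j, if (Sum.inl ⟨j', k', α⟩ : Co K A) = Sum.inl ⟨j, k, α'⟩ then
        a (Fin.cons (Sum.inr ⟨j, l, α'⟩) (Fin.cons (Sum.inr ⟨j', k', β⟩) τ)) else 0) =
      if h : j' = j then
        a (Fin.cons (Sum.inr ⟨j, l, h ▸ α⟩) (Fin.cons (Sum.inr ⟨j, k, h ▸ β⟩) τ)) else 0 := by
    intro k l α β
    by_cases h : j' = j
    · subst h
      rw [dif_pos rfl, Finset.sum_eq_single k]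
      · rw [Finset.sum_eq_single α]
        · simp
        · intro α' _ hα'
          rw [if_neg]
          simpa using fun h => hα' h.symm
        · simp
      · intro k' _ hk'
        refine Finset.sum_eq_zero fun α' _ => ?_
        rw [if_neg]
        simpa using fun h => absurd h hk'
      · simp
    · rw [dif_neg h]
      refine Finset.sum_eq_zero fun k' _ => Finset.sum_eq_zero fun α' _ => ?_
      rw [if_neg]
      intro h1
      apply h
      have h2 := Sum.inl.inj h1
      exact congrArg Sigma.fst h2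
  have hmid : ∀ (k l : K j) (k' : K j') (x : Co K A) (β : A j'),
      (∑ α' : A j, if (Sum.inr ⟨j', k', β⟩ : Co K A) = Sum.inl ⟨j, k, α'⟩ then
        a (Fin.cons x (Fin.cons (Sum.inr ⟨j, l, α'⟩) τ)) else 0) = 0 := by
    intro k l k' x β
    refine Finset.sum_eq_zero fun α' _ => ?_
    rw [if_neg (by simp)]
  have hexp : ∀ k l : K j, con j' α β (opP j k l a) τ =
      ((if h : j' = j then
        a (Fin.cons (Sum.inr ⟨j, l, h ▸ α⟩) (Fin.cons (Sum.inr ⟨j, k, h ▸ β⟩) τ)) else 0) +
      (if h : j' = j then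
        a (Fin.cons (Sum.inr ⟨j, l, h ▸ β⟩) (Fin.cons (Sum.inr ⟨j, k, h ▸ α⟩) τ)) else 0)) +
      opP j k l (con j' α β a) τ := by
    intro k l
    unfold con
    simp only [opP_cons2, hmid, zero_add]
    rw [← hfirst k l α β, ← hfirst k l β α]
    have hR : opP j k l (fun τ => ∑ k' : K j',
        (a (Fin.cons (Sum.inl ⟨j', k', α⟩) (Fin.cons (Sum.inr ⟨j', k', β⟩) τ)) +
          a (Fin.cons (Sum.inl ⟨j', k', β⟩) (Fin.cons (Sum.inr ⟨j', k', α⟩) τ)))) τ =
        ∑ k' : K j', ((∑ m : Fin i, ∑ α' : A j, if τ m = Sum.inl ⟨j, k, α'⟩ then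
          a (Fin.cons (Sum.inl ⟨j', k', α⟩) (Fin.cons (Sum.inr ⟨j', k', β⟩)
            (Function.update τ m (Sum.inr ⟨j, l, α'⟩)))) else 0) +
          ∑ m : Fin i, ∑ α' : A j, if τ m = Sum.inl ⟨j, k, α'⟩ then
          a (Fin.cons (Sum.inl ⟨j', k', β⟩) (Fin.cons (Sum.inr ⟨j', k', α⟩)
            (Function.update τ m (Sum.inr ⟨j, l, α'⟩)))) else 0) := by
      unfold opP
      have e1 : ∀ k' : K j', ((∑ m : Fin i, ∑ α' : A j, if τ m = Sum.inl ⟨j, k, α'⟩ then
          a (Fin.cons (Sum.inl ⟨j', k', α⟩) (Fin.cons (Sum.inr ⟨j', k', β⟩)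
            (Function.update τ m (Sum.inr ⟨j, l, α'⟩)))) else 0) +
          ∑ m : Fin i, ∑ α' : A j, if τ m = Sum.inl ⟨j, k, α'⟩ then
          a (Fin.cons (Sum.inl ⟨j', k', β⟩) (Fin.cons (Sum.inr ⟨j', k', α⟩)
            (Function.update τ m (Sum.inr ⟨j, l, α'⟩)))) else 0) =
          ∑ m : Fin i, ∑ α' : A j, if τ m = Sum.inl ⟨j, k, α'⟩ then
          (a (Fin.cons (Sum.inl ⟨j', k', α⟩) (Fin.cons (Sum.inr ⟨j', k', β⟩)
            (Function.update τ m (Sum.inr ⟨j, l, α'⟩)))) +
          a (Fin.cons (Sum.inl ⟨j', k', β⟩) (Fin.cons (Sum.inr ⟨j', k', α⟩)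
            (Function.update τ m (Sum.inr ⟨j, l, α'⟩))))) else 0 := by
        intro k'
        rw [← Finset.sum_add_distrib]
        refine Finset.sum_congr rfl fun m _ => ?_
        rw [← Finset.sum_add_distrib]
        refine Finset.sum_congr rfl fun α' _ => ?_
        split_ifs <;> simp
      rw [Finset.sum_congr rfl (fun k' _ => e1 k')]
      symm
      conv_lhs => rw [Finset.sum_comm]
      refine Finset.sum_congr rfl fun m _ => ?_
      conv_lhs => rw [Finset.sum_comm]
      refine Finset.sum_congr rfl fun α' _ => ?_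
      split_ifs
      · rfl
      · simp
    rw [hR, ← Finset.sum_add_distrib, ← Finset.sum_add_distrib]
    refine Finset.sum_congr rfl fun k' _ => ?_
    ring
  have hadd : con j' α β (opP j k l a + opP j l k a) τ =
      con j' α β (opP j k l a) τ + con j' α β (opP j l k a) τ := by
    unfold con
    rw [← Finset.sum_add_distrib]
    refine Finset.sum_congr rfl fun k' _ => ?_
    simp only [Pi.add_apply]
    ring
  rw [hadd, hexp, hexp, Pi.add_apply]
  by_cases h : j' = j
  · subst h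
    simp only [dif_pos]
    rw [anti_swap ha (Sum.inr ⟨j', l, α⟩) (Sum.inr ⟨j', k, β⟩) τ,
      anti_swap ha (Sum.inr ⟨j', l, β⟩) (Sum.inr ⟨j', k, α⟩) τ]
    ring
  · simp only [dif_neg h]
    ring

end QALG

theorem t_Q_ALG : Q_ALG := by
  intro J K A _ _ _
  exact ⟨fun i a ha j k l j' α β => QALG.t1 a ha j k l j' α β,
    fun i a j α β ha => QALG.con_anti a j α β ha, fun i a j k l ha => QALG.opP_anti a j k l ha⟩

end Pool.Agent.Z15.Q
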