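import Pool.Agent.T2h31.Q15.Q_ALG

/-! Task Q_GR of helper15: the components of an array. -/

set_option autoImplicit false

namespace Pool.Agent.Z15.Q

namespace QGR

variable {J : Type} {K A : J → Type}

theorem cnt_eq_sum {i : ℕ} (b : Fin i → Co K A) :
    cnt b = ∑ m : Fin i, if (b m).isRight = true then 1 else 0 := by
  unfold cnt
  rw [Finset.card_filter]

theorem cnt_cons {i : ℕ} (x : Co K A) (τ : Fin i → Co K A) :
    cnt (Fin.cons x τ : Fin (i + 1) → Co K A) = (if x.isRight = true then 1 else 0) + cnt τ := by
  rw [cnt_eq_sum, cnt_eq_sum, Fin.sum_univ_succ]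
  simp only [Fin.cons_zero, Fin.cons_succ]

theorem cnt_con {i : ℕ} (j : J) (k l : K j) (α β : A j) (τ : Fin i → Co K A) :
    cnt (Fin.cons (Sum.inl ⟨j, k, α⟩) (Fin.cons (Sum.inr ⟨j, l, β⟩) τ) :
      Fin (i + 2) → Co K A) = cnt τ + 1 := by
  rw [cnt_cons, cnt_cons]
  simp only [Sum.isRight_inl, Sum.isRight_inr]
  simp only [Bool.false_eq_true, if_false, if_true]
  omega

theorem cnt_comp {i : ℕ} (b : Fin i → Co K A) (σ : Equiv.Perm (Fin i)) : cnt (b ∘ σ) = cnt b := by
  rw [cnt_eq_sum, cnt_eq_sum]
  exact Equiv.sum_comp σ fun m : Fin i => if (b m).isRight = true then 1 else 0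

theorem cnt_le {i : ℕ} (b : Fin i → Co K A) : cnt b ≤ i := by
  unfold cnt
  refine (Finset.card_filter_le _ _).trans ?_
  simp

theorem cnt_update {i : ℕ} (b : Fin i → Co K A) (m : Fin i) (s : Σ j, K j × A j)
    (s' : Σ j, K j × A j) (h : b m = Sum.inl s) :
    cnt (Function.update b m (Sum.inr s')) = cnt b + 1 := by
  classical
  rw [cnt_eq_sum, cnt_eq_sum, ← Finset.add_sum_erase _ _ (Finset.mem_univ m),
    ← Finset.add_sum_erase _ _ (Finset.mem_univ m), Function.update_self, h]
  have e : ∑ x ∈ Finset.univ.erase m,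
      (if (Function.update b m (Sum.inr s') x).isRight = true then 1 else 0) =
      ∑ x ∈ Finset.univ.erase m, if (b x).isRight = true then 1 else 0 := by
    refine Finset.sum_congr rfl fun x hx => ?_
    rw [Function.update_of_ne (Finset.ne_of_mem_erase hx)]
  rw [e]
  simp only [Sum.isRight_inl, Sum.isRight_inr, Bool.false_eq_true, if_false, if_true]
  omega

theorem con_part [∀ j, Fintype (K j)] {i : ℕ} (q : ℕ) (a : Arr K A (i + 2)) (j : J)
    (α β : A j) : con j α β (part (q + 1) a) = part q (con j α β a) := by
  funext τ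
  unfold con part
  simp only [cnt_con]
  by_cases h : cnt τ = q
  · simp [h]
  · have h' : ¬ cnt τ + 1 = q + 1 := by omega
    simp [h]

theorem con_part0 [∀ j, Fintype (K j)] {i : ℕ} (a : Arr K A (i + 2)) (j : J)
    (α β : A j) : con j α β (part 0 a) = 0 := by
  funext τ
  unfold con part
  simp only [cnt_con]
  simp

theorem opP_part [∀ j, Fintype (A j)] {i : ℕ} (q : ℕ) (a : Arr K A i) (j : J) (k l : K j) :
    opP j k l (part (q + 1) a) = part q (opP j k l a) := by
  classical
  funext b
  unfold opP part
  by_cases h : cnt b = q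
  · rw [if_pos h]
    refine Finset.sum_congr rfl fun m _ => Finset.sum_congr rfl fun α _ => ?_
    split_ifs with h1 h2 h2
    · rfl
    · exact absurd (by rw [cnt_update b m _ _ h1, h]) h2
    · rfl
  · rw [if_neg h]
    refine Finset.sum_eq_zero fun m _ => Finset.sum_eq_zero fun α _ => ?_
    split_ifs with h1 h2
    · rw [cnt_update b m _ _ h1] at h2
      exact absurd (by omega) h
    · rfl
    · rfl

theorem opP_part0 [∀ j, Fintype (A j)] {i : ℕ} (a : Arr K A i) (j : J) (k l : K j) :
    opP j k l (part 0 a) = 0 := by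
  classical
  funext b
  unfold opP part
  refine Finset.sum_eq_zero fun m _ => Finset.sum_eq_zero fun α _ => ?_
  split_ifs with h1 h2
  · rw [cnt_update b m _ _ h1] at h2
    omega
  · rfl
  · rfl

theorem part_anti {i : ℕ} (q : ℕ) (a : Arr K A i) (ha : Anti a) : Anti (part q a) := by
  intro σ b
  unfold part
  rw [cnt_comp]
  split_ifs
  · exact ha σ b
  · simp

theorem sum_part {i : ℕ} (a : Arr K A i) : a = ∑ q ∈ Finset.range (i + 1), part q a := by
  funext b
  rw [Finset.sum_apply]
  unfold part
  rw [Finset.sum_ite_eq, if_pos (Finset.mem_range.2 (Nat.lt_succ_of_le (cnt_le b)))]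

theorem van_zero [∀ j, Fintype (K j)] : ∀ (c i : ℕ), Van c i (0 : Arr K A i) := by
  intro c
  induction c with
  | zero => intro i; unfold Van; rfl
  | succ c ih =>
    intro i
    match i with
    | 0 => unfold Van; trivial
    | 1 => unfold Van; trivial
    | i + 2 =>
      unfold Van
      intro j α β
      have e : con j α β (0 : Arr K A (i + 2)) = 0 := by
        funext τ
        unfold con
        simp
      rw [e]
      exact ih i

theorem van_part [∀ j, Fintype (K j)] : ∀ (c i q : ℕ) (a : Arr K A i), Van c i a →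
    Van c i (part q a) := by
  intro c
  induction c with
  | zero =>
    intro i q a ha
    unfold Van at ha ⊢
    rw [ha]
    funext b
    unfold part
    simp
  | succ c ih =>
    intro i q a ha
    match i with
    | 0 => unfold Van; trivial
    | 1 => unfold Van; trivial
    | i + 2 =>
      unfold Van at ha ⊢
      intro j α β
      rcases q with _ | q
      · rw [con_part0]
        exact van_zero c i
      · rw [con_part]
        exact ih i q _ (ha j α β)

theorem van_opP [∀ j, Fintype (K j)] [∀ j, Fintype (A j)] : ∀ (c i : ℕ) (a : Arr K A i) (j : J)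
    (k l : K j), Anti a → Van c i a → Van c i (opP j k l a + opP j l k a) := by
  intro c
  induction c with
  | zero =>
    intro i a j k l _ ha
    unfold Van at ha ⊢
    rw [ha]
    funext b
    unfold opP
    simp
  | succ c ih =>
    intro i a j k l hA ha
    match i with
    | 0 => unfold Van; trivial
    | 1 => unfold Van; trivial
    | i + 2 =>
      unfold Van at ha ⊢
      intro j' α β
      rw [QALG.t1 a hA j k l j' α β]
      exact ih i _ j k l (QALG.con_anti a j' α β hA) (ha j' α β)

end QGR

theorem t_Q_GR : Q_GR := by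
  intro J K A _ _ _
  exact ⟨fun i q a j α β => QGR.con_part q a j α β, fun i a j α β => QGR.con_part0 a j α β,
    fun i q a j k l => QGR.opP_part q a j k l, fun i a j k l => QGR.opP_part0 a j k l,
    fun i q a ha => QGR.part_anti q a ha, fun i a => QGR.sum_part a,
    fun c i q a ha => QGR.van_part c i q a ha,
    fun c i a j k l hA ha => QGR.van_opP c i a j k l hA ha⟩

end Pool.Agent.Z15.Q
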