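import Pool.Agent.T2h31.Q15.Q_GR

/-! Task Q_PB of helper15: the action of matrices on arrays. -/

set_option autoImplicit false

namespace Pool.Agent.Z15.Q

namespace QPB

variable {J : Type} {K A : J → Type}

open Classical in
/-- the matrix of `M` on the set of indices -/
noncomputable def ent [∀ j, Fintype (A j)] (M : ∀ j, Matrix (A j) (A j) ℝ) (s' s : Co K A) : ℂ :=
  ∑ γ : A (jOf s), if s' = setA s γ then ((M (jOf s) γ (aOf s) : ℝ) : ℂ) else 0

/-- the operator with kernel `E` -/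
noncomputable def ker {C : Type} [Fintype C] {i : ℕ} (E : C → C → ℂ) (a : (Fin i → C) → ℂ) :
    (Fin i → C) → ℂ := fun b => ∑ b' : Fin i → C, (∏ m, E (b' m) (b m)) * a b'

theorem ker_apply {C : Type} [Fintype C] {i : ℕ} (E : C → C → ℂ)
    (a : (Fin i → C) → ℂ) (b : Fin i → C) :
    ker E a b = ∑ b' : Fin i → C, (∏ m, E (b' m) (b m)) * a b' := rfl

theorem pb_eq_ker [Fintype J] [∀ j, Fintype (K j)] [∀ j, Fintype (A j)]
    (M : ∀ j, Matrix (A j) (A j) ℝ) {i : ℕ} (a : Arr K A i) : pb M a = ker (ent M) a := by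
  classical
  funext b
  rw [ker_apply]
  unfold pb ent
  have h1 : ∀ b' : Fin i → Co K A,
      (∏ m, ∑ γ : A (jOf (b m)), if b' m = setA (b m) γ then
        ((M (jOf (b m)) γ (aOf (b m)) : ℝ) : ℂ) else 0) =
      ∑ γ : (∀ m : Fin i, A (jOf (b m))), if b' = (fun m => setA (b m) (γ m)) then
        ∏ m : Fin i, ((M (jOf (b m)) (γ m) (aOf (b m)) : ℝ) : ℂ) else 0 := by
    intro b'
    rw [Finset.prod_univ_sum]
    simp only [Fintype.piFinset_univ]
    refine Finset.sum_congr rfl fun γ _ => ?_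
    split_ifs with h
    · refine Finset.prod_congr rfl fun m _ => ?_
      rw [if_pos (congrFun h m)]
    · obtain ⟨m, hm⟩ := Function.ne_iff.1 h
      refine Finset.prod_eq_zero (Finset.mem_univ m) ?_
      rw [if_neg hm]
  simp only [h1, Finset.sum_mul]
  rw [Finset.sum_comm]
  refine Finset.sum_congr rfl fun γ _ => ?_
  rw [Finset.sum_eq_single (fun m => setA (b m) (γ m))]
  · rw [if_pos rfl]
  · intro b' _ hb'
    rw [if_neg hb', zero_mul]
  · intro h
    exact absurd (Finset.mem_univ _) h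

theorem ker_anti {C : Type} [Fintype C] {i : ℕ} (E : C → C → ℂ) (a : (Fin i → C) → ℂ)
    (ha : ∀ (σ : Equiv.Perm (Fin i)) (b : Fin i → C),
      a (b ∘ σ) = ((Equiv.Perm.sign σ : ℤ) : ℂ) * a b) (σ : Equiv.Perm (Fin i)) (b : Fin i → C) :
    ker E a (b ∘ σ) = ((Equiv.Perm.sign σ : ℤ) : ℂ) * ker E a b := by
  classical
  rw [ker_apply, ker_apply, Finset.mul_sum]
  rw [← Equiv.sum_comp (Equiv.arrowCongr σ.symm (Equiv.refl C))]
  refine Finset.sum_congr rfl fun b' _ => ?_
  have e : (Equiv.arrowCongr σ.symm (Equiv.refl C)) b' = b' ∘ σ := by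
    funext m
    simp [Equiv.arrowCongr]
  rw [e, ha]
  have e2 : ∏ m, E ((b' ∘ σ) m) ((b ∘ σ) m) = ∏ m, E (b' m) (b m) :=
    Equiv.prod_comp σ fun m => E (b' m) (b m)
  rw [e2]
  ring

/-- derivation with the kernel `Q` -/
noncomputable def dq {C : Type} [Fintype C] {i : ℕ} (Q : C → C → ℂ) (a : (Fin i → C) → ℂ) :
    (Fin i → C) → ℂ := fun b => ∑ m : Fin i, ∑ s' : C, Q s' (b m) * a (Function.update b m s')

theorem ker_dq {C : Type} [Fintype C] {i : ℕ} (E Q : C → C → ℂ)
    (hEQ : ∀ s'' s, ∑ s', E s'' s' * Q s' s = ∑ s', Q s'' s' * E s' s) (a : (Fin i → C) → ℂ) :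
    ker E (dq Q a) = dq Q (ker E a) := by
  classical
  funext b
  unfold dq
  rw [ker_apply]
  simp only [ker_apply, Finset.mul_sum]
  rw [Finset.sum_comm]
  refine Finset.sum_congr rfl fun m _ => ?_
  -- the left hand side
  have hL : ∑ b' : Fin i → C, ∑ s' : C,
      (∏ n, E (b' n) (b n)) * (Q s' (b' m) * a (Function.update b' m s')) =
      ∑ b' : Fin i → C, ∑ s' : C, (∏ n ∈ Finset.univ.erase m, E (b' n) (b n)) *
        (Q (b' m) s' * E s' (b m) * a b') := by
    rw [← Fintype.sum_prod_type', ← Fintype.sum_prod_type']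
    let e : (Fin i → C) × C ≃ (Fin i → C) × C :=
      { toFun := fun x => (Function.update x.1 m x.2, x.1 m)
        invFun := fun x => (Function.update x.1 m x.2, x.1 m)
        left_inv := fun x => by simp
        right_inv := fun x => by simp }
    refine Fintype.sum_equiv e _ _ fun x => ?_
    have e1 : (e x).1 = Function.update x.1 m x.2 := rfl
    have e2 : (e x).2 = x.1 m := rfl
    rw [e1, e2, Function.update_self, ← Finset.mul_prod_erase _ _ (Finset.mem_univ m)]
    have e3 : ∏ n ∈ Finset.univ.erase m, E (Function.update x.1 m x.2 n) (b n) =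
        ∏ n ∈ Finset.univ.erase m, E (x.1 n) (b n) :=
      Finset.prod_congr rfl fun n hn => by
        rw [Function.update_of_ne (Finset.ne_of_mem_erase hn)]
    rw [e3]
    ring
  have hR : ∑ s' : C, ∑ b' : Fin i → C,
      Q s' (b m) * ((∏ n, E (b' n) (Function.update b m s' n)) * a b') =
      ∑ b' : Fin i → C, ∑ s' : C, (∏ n ∈ Finset.univ.erase m, E (b' n) (b n)) *
        (E (b' m) s' * Q s' (b m) * a b') := by
    rw [Finset.sum_comm]
    refine Finset.sum_congr rfl fun b' _ => Finset.sum_congr rfl fun s' _ => ?_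
    rw [← Finset.mul_prod_erase _ _ (Finset.mem_univ m), Function.update_self]
    have e3 : ∏ n ∈ Finset.univ.erase m, E (b' n) (Function.update b m s' n) =
        ∏ n ∈ Finset.univ.erase m, E (b' n) (b n) :=
      Finset.prod_congr rfl fun n hn => by
        rw [Function.update_of_ne (Finset.ne_of_mem_erase hn)]
    rw [e3]
    ring
  rw [hL, hR]
  refine Finset.sum_congr rfl fun b' _ => ?_
  rw [← Finset.mul_sum, ← Finset.mul_sum, ← Finset.sum_mul, ← Finset.sum_mul, hEQ]

open Classical in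
/-- the kernel of `opP` -/
noncomputable def qop [∀ j, Fintype (A j)] (j : J) (k l : K j) (s' s : Co K A) : ℂ :=
  ∑ α : A j, if s = Sum.inl ⟨j, k, α⟩ ∧ s' = Sum.inr ⟨j, l, α⟩ then 1 else 0

theorem opP_eq_dq [Fintype J] [∀ j, Fintype (K j)] [∀ j, Fintype (A j)] {i : ℕ} (j : J)
    (k l : K j) (a : Arr K A i) : opP j k l a = dq (qop j k l) a := by
  classical
  funext b
  unfold opP dq qop
  refine Finset.sum_congr rfl fun m _ => ?_
  simp only [Finset.sum_mul]
  rw [Finset.sum_comm]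
  refine Finset.sum_congr rfl fun α _ => ?_
  rw [Finset.sum_eq_single (Sum.inr ⟨j, l, α⟩ : Co K A)]
  · by_cases h : b m = Sum.inl ⟨j, k, α⟩
    · simp [h]
    · simp [h]
  · intro s' _ hs'
    rw [if_neg (fun h => hs' h.2), zero_mul]
  · intro h
    exact absurd (Finset.mem_univ _) h

theorem ent_sum [Fintype J] [∀ j, Fintype (K j)] [∀ j, Fintype (A j)]
    (M : ∀ j, Matrix (A j) (A j) ℝ) (s : Co K A) (G : Co K A → ℂ) :
    ∑ s', ent M s' s * G s' = ∑ γ : A (jOf s), ((M (jOf s) γ (aOf s) : ℝ) : ℂ) * G (setA s γ) := by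
  classical
  unfold ent
  simp only [Finset.sum_mul]
  rw [Finset.sum_comm]
  refine Finset.sum_congr rfl fun γ _ => ?_
  rw [Finset.sum_eq_single (setA s γ)]
  · rw [if_pos rfl]
  · intro s' _ h
    rw [if_neg h, zero_mul]
  · intro h
    exact absurd (Finset.mem_univ _) h

theorem ker_cons {C : Type} [Fintype C] {i : ℕ} (E : C → C → ℂ) (a : (Fin (i + 1) → C) → ℂ)
    (x : C) (b : Fin i → C) :
    ker E a (Fin.cons (α := fun _ => C) x b) =
      ∑ x', E x' x * ker E (fun b' => a (Fin.cons (α := fun _ => C) x' b')) b := by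
  unfold ker
  rw [← (Fin.consEquiv fun _ : Fin (i + 1) => C).sum_comp, Fintype.sum_prod_type]
  refine Finset.sum_congr rfl fun x' _ => ?_
  rw [Finset.mul_sum]
  refine Finset.sum_congr rfl fun b' _ => ?_
  have e : (Fin.consEquiv fun _ : Fin (i + 1) => C) (x', b') =
      Fin.cons (α := fun _ => C) x' b' := rfl
  rw [e, Fin.prod_univ_succ]
  simp only [Fin.cons_zero, Fin.cons_succ]
  ring

theorem pb_cons2 [Fintype J] [∀ j, Fintype (K j)] [∀ j, Fintype (A j)]
    (M : ∀ j, Matrix (A j) (A j) ℝ) {i : ℕ} (a : Arr K A (i + 2)) (x y : Co K A)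
    (τ : Fin i → Co K A) :
    pb M a (Fin.cons x (Fin.cons y τ)) = ∑ γ : A (jOf x), ∑ δ : A (jOf y),
      ((M (jOf x) γ (aOf x) : ℝ) : ℂ) * (((M (jOf y) δ (aOf y) : ℝ) : ℂ) *
        ker (ent M) (fun τ' => a (Fin.cons (setA x γ) (Fin.cons (setA y δ) τ'))) τ) := by
  rw [pb_eq_ker, ker_cons, ent_sum]
  refine Finset.sum_congr rfl fun γ _ => ?_
  rw [ker_cons, ent_sum, Finset.mul_sum]

theorem ker_add {C : Type} [Fintype C] {i : ℕ} (E : C → C → ℂ) (a a' : (Fin i → C) → ℂ) :
    ker E (a + a') = ker E a + ker E a' := by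
  funext b
  simp only [ker, Pi.add_apply, mul_add, Finset.sum_add_distrib]

theorem ker_smul {C : Type} [Fintype C] {i : ℕ} (E : C → C → ℂ) (c : ℂ) (a : (Fin i → C) → ℂ) :
    ker E (c • a) = c • ker E a := by
  funext b
  simp only [ker, Pi.smul_apply, smul_eq_mul, Finset.mul_sum]
  exact Finset.sum_congr rfl fun _ _ => by ring

theorem ker_sum {C : Type} [Fintype C] {i : ℕ} (E : C → C → ℂ) {ι : Type} (s : Finset ι)
    (f : ι → (Fin i → C) → ℂ) : ker E (∑ k ∈ s, f k) = ∑ k ∈ s, ker E (f k) := by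
  classical
  induction s using Finset.induction_on with
  | empty =>
    funext b
    simp [ker]
  | insert k s hk ih => rw [Finset.sum_insert hk, Finset.sum_insert hk, ker_add, ih]

theorem con_pb [Fintype J] [∀ j, Fintype (K j)] [∀ j, Fintype (A j)]
    (M : ∀ j, Matrix (A j) (A j) ℝ) {i : ℕ} (a : Arr K A (i + 2)) (j : J) (α β : A j) :
    con j α β (pb M a) =
      ∑ γ, ∑ δ, ((M j γ α * M j δ β : ℝ) : ℂ) • pb M (con j γ δ a) := by
  funext τ
  obtain ⟨P, hP⟩ : ∃ P : K j → A j → A j → ℂ, P = fun k γ δ => ker (ent M)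
      (fun τ' => a (Fin.cons (Sum.inl ⟨j, k, γ⟩) (Fin.cons (Sum.inr ⟨j, k, δ⟩) τ'))) τ := ⟨_, rfl⟩
  have hL : ∀ (k : K j) (α β : A j),
      pb M a (Fin.cons (Sum.inl ⟨j, k, α⟩) (Fin.cons (Sum.inr ⟨j, k, β⟩) τ)) =
        ∑ γ, ∑ δ, ((M j γ α : ℝ) : ℂ) * (((M j δ β : ℝ) : ℂ) * P k γ δ) := by
    intro k α β
    rw [pb_cons2, hP]
    rfl
  have hR : ∀ γ δ : A j, pb M (con j γ δ a) τ = ∑ k : K j, (P k γ δ + P k δ γ) := by
    intro γ δ
    have e : con j γ δ a = ∑ k : K j, ((fun τ' => a (Fin.cons (Sum.inl ⟨j, k, γ⟩)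
        (Fin.cons (Sum.inr ⟨j, k, δ⟩) τ'))) + (fun τ' => a (Fin.cons (Sum.inl ⟨j, k, δ⟩)
        (Fin.cons (Sum.inr ⟨j, k, γ⟩) τ')))) := by
      funext τ'
      rw [Finset.sum_apply]
      rfl
    rw [e, pb_eq_ker, ker_sum, Finset.sum_apply]
    refine Finset.sum_congr rfl fun k _ => ?_
    rw [ker_add, Pi.add_apply, hP]
  have h1 : con j α β (pb M a) τ = ∑ k : K j,
      ((∑ γ, ∑ δ, ((M j γ α : ℝ) : ℂ) * (((M j δ β : ℝ) : ℂ) * P k γ δ)) +
        ∑ γ, ∑ δ, ((M j γ β : ℝ) : ℂ) * (((M j δ α : ℝ) : ℂ) * P k γ δ)) := by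
    unfold con
    refine Finset.sum_congr rfl fun k _ => ?_
    rw [hL, hL]
  have h2 : (∑ γ, ∑ δ, ((M j γ α * M j δ β : ℝ) : ℂ) • pb M (con j γ δ a)) τ =
      ∑ γ, ∑ δ, ((M j γ α * M j δ β : ℝ) : ℂ) * ∑ k : K j, (P k γ δ + P k δ γ) := by
    rw [Finset.sum_apply]
    refine Finset.sum_congr rfl fun γ _ => ?_
    rw [Finset.sum_apply]
    refine Finset.sum_congr rfl fun δ _ => ?_
    rw [Pi.smul_apply, smul_eq_mul, hR]
  rw [h1, h2]
  have h3 : ∀ k : K j, (∑ γ, ∑ δ, ((M j γ β : ℝ) : ℂ) * (((M j δ α : ℝ) : ℂ) * P k γ δ)) =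
      ∑ γ, ∑ δ, ((M j δ β : ℝ) : ℂ) * (((M j γ α : ℝ) : ℂ) * P k δ γ) :=
    fun k => Finset.sum_comm
  simp only [h3, Finset.mul_sum]
  rw [Finset.sum_congr rfl fun (k : K j) _ => (Finset.sum_add_distrib (s := Finset.univ)
    (f := fun γ => ∑ δ, ((M j γ α : ℝ) : ℂ) * (((M j δ β : ℝ) : ℂ) * P k γ δ))
    (g := fun γ => ∑ δ, ((M j δ β : ℝ) : ℂ) * (((M j γ α : ℝ) : ℂ) * P k δ γ))).symm]
  rw [Finset.sum_comm]
  refine Finset.sum_congr rfl fun γ _ => ?_
  rw [Finset.sum_congr rfl fun (k : K j) _ => (Finset.sum_add_distrib (s := Finset.univ)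
    (f := fun δ => ((M j γ α : ℝ) : ℂ) * (((M j δ β : ℝ) : ℂ) * P k γ δ))
    (g := fun δ => ((M j δ β : ℝ) : ℂ) * (((M j γ α : ℝ) : ℂ) * P k δ γ))).symm]
  rw [Finset.sum_comm]
  refine Finset.sum_congr rfl fun δ _ => Finset.sum_congr rfl fun k _ => ?_
  push_cast
  ring

theorem ent_inl [∀ j, Fintype (A j)] (M : ∀ j, Matrix (A j) (A j) ℝ) (s' : Co K A) (j : J)
    (k : K j) (α : A j) :
    ent M s' (Sum.inl ⟨j, k, α⟩) = ∑ γ : A j, open Classical in
      if s' = Sum.inl ⟨j, k, γ⟩ then ((M j γ α : ℝ) : ℂ) else 0 := rfl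

theorem ent_inr [∀ j, Fintype (A j)] (M : ∀ j, Matrix (A j) (A j) ℝ) (s' : Co K A) (j : J)
    (k : K j) (α : A j) :
    ent M s' (Sum.inr ⟨j, k, α⟩) = ∑ γ : A j, open Classical in
      if s' = Sum.inr ⟨j, k, γ⟩ then ((M j γ α : ℝ) : ℂ) else 0 := rfl

theorem ent_inl_same [∀ j, Fintype (A j)] (M : ∀ j, Matrix (A j) (A j) ℝ) (j : J)
    (k : K j) (γ α : A j) :
    ent M (Sum.inl ⟨j, k, γ⟩ : Co K A) (Sum.inl ⟨j, k, α⟩) = ((M j γ α : ℝ) : ℂ) := by
  classical
  rw [ent_inl, Finset.sum_eq_single γ]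
  · simp
  · intro δ _ hδ
    rw [if_neg]
    intro h
    apply hδ
    simpa using h.symm
  · intro h
    exact absurd (Finset.mem_univ _) h

theorem ent_inr_same [∀ j, Fintype (A j)] (M : ∀ j, Matrix (A j) (A j) ℝ) (j : J)
    (k : K j) (γ α : A j) :
    ent M (Sum.inr ⟨j, k, γ⟩ : Co K A) (Sum.inr ⟨j, k, α⟩) = ((M j γ α : ℝ) : ℂ) := by
  classical
  rw [ent_inr, Finset.sum_eq_single γ]
  · simp
  · intro δ _ hδ
    rw [if_neg]
    intro h
    apply hδ
    simpa using h.symm
  · intro h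
    exact absurd (Finset.mem_univ _) h

theorem ent_inl_zero [∀ j, Fintype (A j)] (M : ∀ j, Matrix (A j) (A j) ℝ) (s' : Co K A) (j : J)
    (k : K j) (α : A j) (h : ∀ γ : A j, s' ≠ Sum.inl ⟨j, k, γ⟩) :
    ent M s' (Sum.inl ⟨j, k, α⟩) = 0 := by
  classical
  rw [ent_inl]
  exact Finset.sum_eq_zero fun γ _ => if_neg (h γ)

theorem ent_inr_zero [∀ j, Fintype (A j)] (M : ∀ j, Matrix (A j) (A j) ℝ) (s' : Co K A) (j : J)
    (k : K j) (α : A j) (h : ∀ γ : A j, s' ≠ Sum.inr ⟨j, k, γ⟩) :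
    ent M s' (Sum.inr ⟨j, k, α⟩) = 0 := by
  classical
  rw [ent_inr]
  exact Finset.sum_eq_zero fun γ _ => if_neg (h γ)

theorem ent_qop [Fintype J] [∀ j, Fintype (K j)] [∀ j, Fintype (A j)]
    (M : ∀ j, Matrix (A j) (A j) ℝ) (j : J) (k l : K j) (s'' s : Co K A) :
    ∑ s', ent M s'' s' * qop j k l s' s = ∑ s', qop j k l s'' s' * ent M s' s := by
  classical
  have h1 : ∑ s', ent M s'' s' * qop j k l s' s =
      ∑ α : A j, if s = Sum.inl ⟨j, k, α⟩ then ent M s'' (Sum.inr ⟨j, l, α⟩) else 0 := by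
    unfold qop
    simp only [Finset.mul_sum]
    rw [Finset.sum_comm]
    refine Finset.sum_congr rfl fun α _ => ?_
    rw [Finset.sum_eq_single (Sum.inr ⟨j, l, α⟩ : Co K A)]
    · by_cases h : s = Sum.inl ⟨j, k, α⟩
      · simp [h]
      · simp [h]
    · intro s' _ hs'
      rw [if_neg (fun h => hs' h.2), mul_zero]
    · intro h
      exact absurd (Finset.mem_univ _) h
  have h2 : ∑ s', qop j k l s'' s' * ent M s' s =
      ∑ α : A j, if s'' = Sum.inr ⟨j, l, α⟩ then ent M (Sum.inl ⟨j, k, α⟩) s else 0 := by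
    unfold qop
    simp only [Finset.sum_mul]
    rw [Finset.sum_comm]
    refine Finset.sum_congr rfl fun α _ => ?_
    rw [Finset.sum_eq_single (Sum.inl ⟨j, k, α⟩ : Co K A)]
    · by_cases h : s'' = Sum.inr ⟨j, l, α⟩
      · simp [h]
      · simp [h]
    · intro s' _ hs'
      rw [if_neg (fun h => hs' h.1), zero_mul]
    · intro h
      exact absurd (Finset.mem_univ _) h
  rw [h1, h2]
  rcases s with ⟨j0, k0, α0⟩ | ⟨j0, k0, α0⟩
  · by_cases hjk : ∃ α : A j, (Sum.inl ⟨j0, k0, α0⟩ : Co K A) = Sum.inl ⟨j, k, α⟩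
    · obtain ⟨α1, hα1⟩ := hjk
      rw [hα1, Finset.sum_eq_single α1]
      · rw [if_pos rfl, ent_inr]
        refine Finset.sum_congr rfl fun γ _ => ?_
        rw [ent_inl_same]
      · intro α _ hα
        rw [if_neg]
        intro h
        apply hα
        simpa using h.symm
      · intro h
        exact absurd (Finset.mem_univ _) h
    · push Not at hjk
      rw [Finset.sum_eq_zero, Finset.sum_eq_zero]
      · intro α _
        split_ifs
        · refine ent_inl_zero M _ _ _ _ fun γ h => ?_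
          have h2 := Sum.inl.inj h
          have h3 : j = j0 := congrArg Sigma.fst h2
          subst h3
          have h4 : k = k0 := (Prod.mk.inj (eq_of_heq (Sigma.mk.inj h2).2)).1
          subst h4
          exact hjk α0 rfl
        · rfl
      · intro α _
        rw [if_neg (hjk α)]
  · rw [Finset.sum_eq_zero, Finset.sum_eq_zero]
    · intro α _
      split_ifs
      · exact ent_inr_zero M _ _ _ _ fun γ => by simp
      · rfl
    · intro α _
      rw [if_neg (by simp)]

theorem ent_tr [∀ j, Fintype (A j)] (M : ∀ j, Matrix (A j) (A j) ℝ) (s' s : Co K A) :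
    starRingEnd ℂ (ent (fun j => (M j).transpose) s' s) = ent M s s' := by
  classical
  rcases s with ⟨j, k, α⟩ | ⟨j, k, α⟩ <;> rcases s' with ⟨j', k', α'⟩ | ⟨j', k', α'⟩
  · by_cases hj : j' = j
    · subst hj
      by_cases hk : k' = k
      · subst hk
        rw [ent_inl_same, ent_inl_same, Complex.conj_ofReal, Matrix.transpose_apply]
      · rw [ent_inl_zero, ent_inl_zero, map_zero]
        · intro γ h
          exact hk (Prod.mk.inj (eq_of_heq (Sigma.mk.inj (Sum.inl.inj h)).2)).1.symm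
        · intro γ h
          exact hk (Prod.mk.inj (eq_of_heq (Sigma.mk.inj (Sum.inl.inj h)).2)).1
    · rw [ent_inl_zero, ent_inl_zero, map_zero]
      · intro γ h
        exact hj (congrArg Sigma.fst (Sum.inl.inj h)).symm
      · intro γ h
        exact hj (congrArg Sigma.fst (Sum.inl.inj h))
  · rw [ent_inl_zero, ent_inr_zero, map_zero]
    · intro γ; simp
    · intro γ; simp
  · rw [ent_inr_zero, ent_inl_zero, map_zero]
    · intro γ; simp
    · intro γ; simp
  · by_cases hj : j' = j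
    · subst hj
      by_cases hk : k' = k
      · subst hk
        rw [ent_inr_same, ent_inr_same, Complex.conj_ofReal, Matrix.transpose_apply]
      · rw [ent_inr_zero, ent_inr_zero, map_zero]
        · intro γ h
          exact hk (Prod.mk.inj (eq_of_heq (Sigma.mk.inj (Sum.inr.inj h)).2)).1.symm
        · intro γ h
          exact hk (Prod.mk.inj (eq_of_heq (Sigma.mk.inj (Sum.inr.inj h)).2)).1
    · rw [ent_inr_zero, ent_inr_zero, map_zero]
      · intro γ h
        exact hj (congrArg Sigma.fst (Sum.inr.inj h)).symm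
      · intro γ h
        exact hj (congrArg Sigma.fst (Sum.inr.inj h))

theorem pb_adj [Fintype J] [∀ j, Fintype (K j)] [∀ j, Fintype (A j)]
    (M : ∀ j, Matrix (A j) (A j) ℝ) {i : ℕ} (a a' : Arr K A i) :
    ∑ b, pb M a b * starRingEnd ℂ (a' b) =
      ∑ b, a b * starRingEnd ℂ (pb (fun j => (M j).transpose) a' b) := by
  rw [pb_eq_ker, pb_eq_ker]
  unfold ker
  simp only [map_sum, map_mul, map_prod, ent_tr, Finset.sum_mul, Finset.mul_sum]
  rw [Finset.sum_comm]
  refine Finset.sum_congr rfl fun b _ => Finset.sum_congr rfl fun b' _ => ?_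
  ring

theorem ent_right [∀ j, Fintype (A j)] (M : ∀ j, Matrix (A j) (A j) ℝ) (s' s : Co K A)
    (h : ent M s' s ≠ 0) : s'.isRight = s.isRight := by
  classical
  unfold ent at h
  obtain ⟨γ, _, hγ⟩ := Finset.exists_ne_zero_of_sum_ne_zero h
  have h1 : s' = setA s γ := by
    by_contra hne
    rw [if_neg hne] at hγ
    exact hγ rfl
  rw [h1]
  rcases s with s | s <;> rfl

theorem pb_part [Fintype J] [∀ j, Fintype (K j)] [∀ j, Fintype (A j)]
    (M : ∀ j, Matrix (A j) (A j) ℝ) {i : ℕ} (q : ℕ) (a : Arr K A i) :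
    pb M (part q a) = part q (pb M a) := by
  rw [pb_eq_ker, pb_eq_ker]
  funext b
  unfold ker part
  by_cases hb : cnt b = q
  · rw [if_pos hb]
    refine Finset.sum_congr rfl fun b' _ => ?_
    by_cases hp : ∏ m, ent M (b' m) (b m) = 0
    · rw [hp, zero_mul, zero_mul]
    · have h1 : cnt b' = cnt b := by
        rw [QGR.cnt_eq_sum, QGR.cnt_eq_sum]
        refine Finset.sum_congr rfl fun m _ => ?_
        rw [ent_right M (b' m) (b m) fun h => hp (Finset.prod_eq_zero (Finset.mem_univ m) h)]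
      rw [if_pos (h1.trans hb)]
  · rw [if_neg hb]
    refine Finset.sum_eq_zero fun b' _ => ?_
    by_cases hp : ∏ m, ent M (b' m) (b m) = 0
    · rw [hp, zero_mul]
    · have h1 : cnt b' = cnt b := by
        rw [QGR.cnt_eq_sum, QGR.cnt_eq_sum]
        refine Finset.sum_congr rfl fun m _ => ?_
        rw [ent_right M (b' m) (b m) fun h => hp (Finset.prod_eq_zero (Finset.mem_univ m) h)]
      rw [if_neg (fun h => hb (h1.symm.trans h)), mul_zero]

theorem van_add [∀ j, Fintype (K j)] : ∀ (c i : ℕ) (a a' : Arr K A i), Van c i a → Van c i a' →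
    Van c i (a + a') := by
  intro c
  induction c with
  | zero =>
    intro i a a' h h'
    unfold Van at h h' ⊢
    rw [h, h', add_zero]
  | succ c ih =>
    intro i a a' h h'
    match i with
    | 0 => unfold Van; trivial
    | 1 => unfold Van; trivial
    | i + 2 =>
      unfold Van at h h' ⊢
      intro j α β
      have e : con j α β (a + a') = con j α β a + con j α β a' := by
        funext τ
        unfold con
        rw [Pi.add_apply, ← Finset.sum_add_distrib]
        refine Finset.sum_congr rfl fun k _ => ?_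
        simp only [Pi.add_apply]
        ring
      rw [e]
      exact ih i _ _ (h j α β) (h' j α β)

theorem van_smul [∀ j, Fintype (K j)] : ∀ (c i : ℕ) (x : ℂ) (a : Arr K A i), Van c i a →
    Van c i (x • a) := by
  intro c
  induction c with
  | zero =>
    intro i x a h
    unfold Van at h ⊢
    rw [h, smul_zero]
  | succ c ih =>
    intro i x a h
    match i with
    | 0 => unfold Van; trivial
    | 1 => unfold Van; trivial
    | i + 2 =>
      unfold Van at h ⊢
      intro j α β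
      have e : con j α β (x • a) = x • con j α β a := by
        funext τ
        unfold con
        rw [Pi.smul_apply, Finset.smul_sum]
        refine Finset.sum_congr rfl fun k _ => ?_
        simp only [Pi.smul_apply, smul_eq_mul]
        ring
      rw [e]
      exact ih i x _ (h j α β)

theorem van_sum [∀ j, Fintype (K j)] (c i : ℕ) {ι : Type} (s : Finset ι) (f : ι → Arr K A i)
    (h : ∀ x ∈ s, Van c i (f x)) : Van c i (∑ x ∈ s, f x) := by
  classical
  induction s using Finset.induction_on with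
  | empty => rw [Finset.sum_empty]; exact QGR.van_zero c i
  | insert x s hx ih =>
    rw [Finset.sum_insert hx]
    exact van_add c i _ _ (h x (Finset.mem_insert_self x s))
      (ih fun y hy => h y (Finset.mem_insert_of_mem hy))

theorem van_pb [Fintype J] [∀ j, Fintype (K j)] [∀ j, Fintype (A j)]
    (M : ∀ j, Matrix (A j) (A j) ℝ) : ∀ (c i : ℕ) (a : Arr K A i), Van c i a →
    Van c i (pb M a) := by
  intro c
  induction c with
  | zero =>
    intro i a h
    unfold Van at h ⊢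
    rw [h]
    funext b
    simp [pb]
  | succ c ih =>
    intro i a h
    match i with
    | 0 => unfold Van; trivial
    | 1 => unfold Van; trivial
    | i + 2 =>
      unfold Van at h ⊢
      intro j α β
      rw [con_pb]
      refine van_sum c i _ _ fun γ _ => van_sum c i _ _ fun δ _ => van_smul c i _ _ ?_
      exact ih i _ (h j γ δ)

end QPB

theorem t_Q_PB : Q_PB := by
  intro J K A _ _ _ M
  refine ⟨fun i a j α β => QPB.con_pb M a j α β, ?_, ?_, fun i a a' => QPB.pb_adj M a a',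
    fun i q a => QPB.pb_part M q a, ?_, ?_, fun c i a h => QPB.van_pb M c i a h⟩
  · intro i a j k l
    rw [QPB.opP_eq_dq, QPB.opP_eq_dq, QPB.pb_eq_ker, QPB.pb_eq_ker]
    exact QPB.ker_dq _ _ (fun s'' s => QPB.ent_qop M j k l s'' s) a
  · intro i a ha σ b
    rw [QPB.pb_eq_ker]
    exact QPB.ker_anti _ a ha σ b
  · intro i a a'
    rw [QPB.pb_eq_ker, QPB.pb_eq_ker, QPB.pb_eq_ker, QPB.ker_add]
  · intro i c a
    rw [QPB.pb_eq_ker, QPB.pb_eq_ker, QPB.ker_smul]

end Pool.Agent.Z15.Q
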